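import Pool.Agent.H304Z.NH.Spec3

set_option autoImplicit false
set_option linter.unusedSectionVars false
set_option linter.unusedVariables false

/-!
Step (E) (doubling) of part two.
-/

namespace Pool.Agent.H849Z.NH

open Matrix Finset
open scoped MatrixOrder ComplexOrder
open Pool.Agent.H304Z.NH

section lemmas

variable {n : Type} [Fintype n] [DecidableEq n] {ι κ : Type} [Fintype ι] [Fintype κ]

theorem hyp_mono {G : Type} [Group G] {u : G → Mat n} {U : Mat n} {W W' : Finset G} {ω : ℝ}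
    (h : Hyp u U W ω) (hW : W' ⊆ W) : Hyp u U W' ω :=
  ⟨h.1, h.2.1, h.2.2.1, h.2.2.2.1, fun g hg k hk => h.2.2.2.2.1 g (hW hg) k (hW hk),
    fun g hg => h.2.2.2.2.2 g (hW hg)⟩

theorem AA_eq_LL (y : ι → Mat n) : AA y = tr (LL y) := by
  rw [AA, LL, tr_sum]
  exact Finset.sum_congr rfl fun a _ => nsq_eq' _

theorem AA_eq_RR (y : ι → Mat n) : AA y = tr (RR y) := by
  rw [AA, RR, tr_sum]
  exact Finset.sum_congr rfl fun a _ => nsq_eq _

theorem AA_nonneg (y : ι → Mat n) : 0 ≤ AA y :=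
  Finset.sum_nonneg fun a _ => nsq_nonneg _

theorem LL_nonneg (y : ι → Mat n) : 0 ≤ LL y :=
  Finset.sum_nonneg fun a _ => mul_star_nonneg _

theorem RR_nonneg (y : ι → Mat n) : 0 ≤ RR y :=
  Finset.sum_nonneg fun a _ => star_mul_nonneg _

theorem AA_le {y : ι → Mat n} {U : Mat n} {r : ℝ} (h : LL y ≤ r • U) : AA y ≤ r * tr U := by
  rw [AA_eq_LL, ← tr_smul]
  exact tr_mono h

theorem conj_bound {U p L : Mat n} {r : ℝ} (hU : IsProj U) (hp : IsU p) (hr : 0 ≤ r)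
    (h : L ≤ r • U) : U * (pᴴ * L * p) * U ≤ r • U := by
  have h1 : L ≤ r • (1 : Mat n) := h.trans (rsmul_le hr hU.le_one)
  have h2 := conj_le h1 p
  rw [Matrix.mul_smul, Matrix.mul_one, Matrix.smul_mul, hp.1] at h2
  have h3 := conj_le h2 U
  rw [hU.1, Matrix.mul_smul, Matrix.mul_one, Matrix.smul_mul, hU.2] at h3
  exact h3

theorem bes_conj {y : ι → Mat n} (hy : Bes y) {p q : Mat n} (hp : IsU p) (hq : IsU q) :
    Bes (fun a => pᴴ * y a * q) := by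
  intro x
  have h := hy (p * x * qᴴ)
  rw [nsq_mul_U hq.star, nsq_U_mul hp] at h
  refine le_trans (le_of_eq ?_) h
  refine Finset.sum_congr rfl fun a _ => ?_
  congr 2
  simp only [conjTranspose_mul, conjTranspose_conjTranspose]
  rw [Matrix.mul_assoc qᴴ, trace_mul_comm qᴴ]
  simp only [Matrix.mul_assoc]

theorem AA_conj (y : ι → Mat n) {p q : Mat n} (hp : IsU p) (hq : IsU q) :
    AA (fun a => pᴴ * y a * q) = AA y := by
  unfold AA
  refine Finset.sum_congr rfl fun a _ => ?_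
  rw [nsq_mul_U hq, nsq_U_mul hp.star]

theorem norm_trace_swap (x y : Mat n) : ‖trace (xᴴ * y)‖ = ‖trace (yᴴ * x)‖ := by
  have : trace (yᴴ * x) = star (trace (xᴴ * y)) := by
    rw [← trace_conjTranspose, conjTranspose_mul, conjTranspose_conjTranspose]
  rw [this, norm_star]

theorem norm_add3_sq (a b c : ℂ) : ‖a + b + c‖ ^ 2 ≤ 3 * (‖a‖ ^ 2 + ‖b‖ ^ 2 + ‖c‖ ^ 2) := by
  have h : ‖a + b + c‖ ≤ ‖a‖ + ‖b‖ + ‖c‖ := norm_add₃_le
  have h0 := norm_nonneg (a + b + c)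
  have h1 : ‖a + b + c‖ ^ 2 ≤ (‖a‖ + ‖b‖ + ‖c‖) ^ 2 := pow_le_pow_left₀ h0 h 2
  nlinarith [sq_nonneg (‖a‖ - ‖b‖), sq_nonneg (‖a‖ - ‖c‖), sq_nonneg (‖b‖ - ‖c‖)]

theorem cross_le (z z0 : ι → Mat n) (w w0 : κ → Mat n) (hz0 : Bes z0) (hw : Bes w) :
    ∑ a, ∑ b, ‖trace ((z a)ᴴ * w b)‖ ^ 2 ≤
      3 * (∑ a, nsq (z0 a - z a) + ∑ b, nsq (w0 b - w b) +
        ∑ a, ∑ b, ‖trace ((z0 a)ᴴ * w0 b)‖ ^ 2) := by
  have h1 : ∑ a, ∑ b, ‖trace ((z a - z0 a)ᴴ * w b)‖ ^ 2 ≤ ∑ a, nsq (z0 a - z a) := by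
    refine Finset.sum_le_sum fun a _ => ?_
    rw [nsq_sub_comm]
    refine le_trans (le_of_eq ?_) (hw (z a - z0 a))
    exact Finset.sum_congr rfl fun b _ => by rw [norm_trace_swap]
  have h2 : ∑ a, ∑ b, ‖trace ((z0 a)ᴴ * (w b - w0 b))‖ ^ 2 ≤ ∑ b, nsq (w0 b - w b) := by
    rw [Finset.sum_comm]
    refine Finset.sum_le_sum fun b _ => ?_
    rw [nsq_sub_comm]
    exact hz0 _
  have h3 : ∑ a, ∑ b, ‖trace ((z a)ᴴ * w b)‖ ^ 2 ≤
      ∑ a, ∑ b, 3 * (‖trace ((z a - z0 a)ᴴ * w b)‖ ^ 2 +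
        ‖trace ((z0 a)ᴴ * (w b - w0 b))‖ ^ 2 + ‖trace ((z0 a)ᴴ * w0 b)‖ ^ 2) := by
    refine Finset.sum_le_sum fun a _ => Finset.sum_le_sum fun b _ => ?_
    have e : trace ((z a)ᴴ * w b) = trace ((z a - z0 a)ᴴ * w b) +
        trace ((z0 a)ᴴ * (w b - w0 b)) + trace ((z0 a)ᴴ * w0 b) := by
      rw [conjTranspose_sub, Matrix.sub_mul, Matrix.mul_sub, trace_sub, trace_sub]
      ring
    rw [e]
    exact norm_add3_sq _ _ _
  simp only [← Finset.mul_sum, Finset.sum_add_distrib] at h3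
  linarith

theorem AA_le_t (t : ℝ) (ht : 0 < t) (x y : ι → Mat n) :
    AA x ≤ (1 + t) * AA y + (1 + 1 / t) * ∑ a, nsq (x a - y a) := by
  unfold AA
  rw [Finset.mul_sum, Finset.mul_sum, ← Finset.sum_add_distrib]
  refine Finset.sum_le_sum fun a _ => ?_
  have h := nsq_add_le_t t ht (y a) (x a - y a)
  rwa [add_sub_cancel] at h

theorem EE_le {G : Type} {v : G → Mat n} (hv : ∀ g, IsU (v g)) (S : Finset G)
    (w w' : ι → Mat n) :
    EE v S w' ≤ 2 * EE v S w + 8 * (S.card : ℝ) * ∑ a, nsq (w a - w' a) := by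
  unfold EE
  rw [Finset.mul_sum, Finset.mul_sum, ← Finset.sum_add_distrib]
  refine Finset.sum_le_sum fun a _ => ?_
  unfold en
  have h : ∀ s ∈ S, nsq (cm (v s) (w' a)) ≤
      2 * nsq (cm (v s) (w a)) + 8 * nsq (w a - w' a) := by
    intro s _
    have e : w' a = w a - (w a - w' a) := by abel
    have h1 := nsq_sub_le (cm (v s) (w a)) (cm (v s) (w a - w' a))
    rw [← cm_sub, ← e] at h1
    have h2 := nsq_cm_le (hv s) (w a - w' a)
    linarith
  refine (Finset.sum_le_sum h).trans (le_of_eq ?_)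
  rw [Finset.sum_add_distrib, ← Finset.mul_sum, Finset.sum_const, nsmul_eq_mul]
  ring

theorem LL_elim (z : ι → Mat n) (w : κ → Mat n) : LL (Sum.elim z w) = LL z + LL w := by
  simp [LL, Fintype.sum_sum_type]

theorem RR_elim (z : ι → Mat n) (w : κ → Mat n) : RR (Sum.elim z w) = RR z + RR w := by
  simp [RR, Fintype.sum_sum_type]

theorem AA_elim (z : ι → Mat n) (w : κ → Mat n) : AA (Sum.elim z w) = AA z + AA w := by
  simp [AA, Fintype.sum_sum_type]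

theorem EE_elim {G : Type} (v : G → Mat n) (S : Finset G) (z : ι → Mat n) (w : κ → Mat n) :
    EE v S (Sum.elim z w) = EE v S z + EE v S w := by
  simp [EE, Fintype.sum_sum_type]

theorem five_le {a b c U : Mat n} {r : ℝ} (ha : a ≤ r • U) (hb : b ≤ r • U)
    (hc : c ≤ (2 : ℝ) • b + (2 : ℝ) • a) : a + c ≤ (5 * r) • U := by
  have h1 := rsmul_le (show (0 : ℝ) ≤ 2 by norm_num) ha
  have h2 := rsmul_le (show (0 : ℝ) ≤ 2 by norm_num) hb
  have h3 := add_le_add ha (hc.trans (add_le_add h2 h1))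
  have e : r • U + ((2 : ℝ) • r • U + (2 : ℝ) • r • U) = (5 * r) • U := by
    rw [smul_smul, ← add_smul, ← add_smul]
    congr 1
    ring
  rwa [e] at h3

end lemmas

theorem arith {M F η P K s A Az Aw Aw' dz dw X D Ez Ew Ew' : ℝ} (hM : 0 < M) (hF : 1 / 50 < F)
    (hK : 0 ≤ K) (hs : 0 ≤ s) (hP : P ≤ M / 10 ^ 9) (hKP : K * P ≤ M / 10 ^ 9)
    (hKsP : K * (s * P) ≤ M / 10 ^ 9) (hη : η * M ≤ P)
    (hA : ((F - η) / 2 - 1 / 500) * M ≤ A)
    (h1 : A ≤ (1 + 1 / 1000) * Az + (1 + 1 / (1 / 1000)) * dz)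
    (h2 : A ≤ (1 + 1 / 1000) * Aw + (1 + 1 / (1 / 1000)) * dw)
    (h3 : Aw ≤ (1 + 1 / 1000) * Aw' + (1 + 1 / (1 / 1000)) * D)
    (hAz : Az ≤ M / 10) (hAw : Aw ≤ M / 10) (hAw' : Aw' ≤ M / 2)
    (hdz : dz ≤ P) (hdw : dw ≤ P) (hD : D ≤ X) (hX : X ≤ 15 * P)
    (hEz : Ez ≤ 2 * P) (hEw : Ew ≤ 2 * P) (hEw' : Ew' ≤ 2 * Ew + 8 * s * D)
    (hB : 3 * (Az + Aw') ≤ (F + 2 * (1 / 1000) + 2 * (1 + 1 / (1 / 1000)) * η) * (2 * M) +
      4 * (1 + 1 / (1 / 1000)) * K * (Ez + Ew')) : False := by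
  have e1 : s * D ≤ s * (15 * P) := mul_le_mul_of_nonneg_left (hD.trans hX) hs
  have e2 : Ez + Ew' ≤ 6 * P + 120 * (s * P) := by nlinarith
  have e3 : K * (Ez + Ew') ≤ K * (6 * P + 120 * (s * P)) := mul_le_mul_of_nonneg_left e2 hK
  have e4 : K * (Ez + Ew') ≤ 126 * (M / 10 ^ 9) := by nlinarith
  have e5 : 1 / 50 * M < F * M := mul_lt_mul_of_pos_right hF hM
  norm_num at h1 h2 h3 hB
  nlinarith

theorem ee (hLC : S_LC) (hLX : S_LX) (hLO : S_LO) : Pool.Agent.H304Z.NH.S_E := by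
  intro G _ S θ t c hS ht hc K hK
  classical
  have hs : (0 : ℝ) ≤ S.card := Nat.cast_nonneg _
  set s : ℝ := (S.card : ℝ) with hsdef
  have hD : 0 < (1 + K) * (1 + s) := by positivity
  set δ : ℝ := 1 / 10 ^ 9 / ((1 + K) * (1 + s)) with hδ
  have hδ0 : 0 < δ := by positivity
  have hδD : δ * ((1 + K) * (1 + s)) = 1 / 10 ^ 9 := by
    rw [hδ]; field_simp
  have hKs : 0 ≤ K * s := mul_nonneg hK hs
  have hδ1 : δ ≤ 1 / 10 ^ 9 := by nlinarith
  have hδ2 : K * δ ≤ 1 / 10 ^ 9 := by nlinarith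
  have hδ3 : K * (s * δ) ≤ 1 / 10 ^ 9 := by nlinarith
  refine ⟨δ, hδ0, fun J _ _ l => ?_⟩
  obtain ⟨W1, C1, hC1, H1⟩ := hLC G S θ t 1 hS ht (fun g => by rw [one_mul, mul_one])
  obtain ⟨W2, C2, hC2, H2⟩ := hLC G S θ t c hS ht hc
  obtain ⟨W3, C3, hC3, H3⟩ := hLX G S θ c hS J l
  have hC : 0 < 1 + C1 + C2 + C3 := by positivity
  set τ : ℝ := δ / (1 + C1 + C2 + C3) with hτ
  have hτ0 : 0 < τ := by positivity
  have hτC : τ * (1 + C1 + C2 + C3) = δ := by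
    rw [hτ]; field_simp
  have hτ1 : τ ≤ δ := by nlinarith
  have hτ2 : C1 * τ ≤ δ := by nlinarith
  have hτ3 : C2 * τ ≤ δ := by nlinarith
  have hτ4 : C3 * τ ≤ δ := by nlinarith
  refine ⟨τ, W1 ∪ W2 ∪ W3, hτ0, ?_⟩
  intro η hη hητ n _ _ u U hH hε m F hm hF hB ι _ y hy hE hA
  have hm10 : 0 < m / 10 := by positivity
  have hu := hH.1
  have hu1 := hH.2.1
  have hU := hH.2.2.1
  have hn := hH.2.2.2.1
  obtain ⟨bz, lz, rz, dz, ez⟩ := H1 η hη.le n u U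
    (hyp_mono hH (Finset.subset_union_left.trans Finset.subset_union_left)) (m / 10) hm10 ι y hy
  obtain ⟨bw, lw, rw', dw, ew⟩ := H2 η hη.le n u U
    (hyp_mono hH (Finset.subset_union_right.trans Finset.subset_union_left)) (m / 10) hm10 ι y hy
  have hX0 := H3 η hη.le n u U (hyp_mono hH Finset.subset_union_right) (m / 10) hm10 ι y hy
  have hq1 : IsU (u 1 * u t) := (hu 1).mul (hu t)
  have hq2 : IsU (u c * u t) := (hu c).mul (hu t)
  set z0 : ι → Mat n := fun a => (u t)ᴴ * y a * (u 1 * u t) with hz0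
  set w0 : ι → Mat n := fun a => (u t)ᴴ * y a * (u c * u t) with hw0
  set z : ι → Mat n := fun a => U * ((u t)ᴴ * y a * (u 1 * u t)) * U with hz
  set w : ι → Mat n := fun a => U * ((u t)ᴴ * y a * (u c * u t)) * U with hw
  set v : G → Mat n := fun g => u (θ g) with hv
  have hvU : ∀ g, IsU (v g) := fun g => hu _
  have lz' : LL z ≤ (m / 10) • U := lz.trans (conj_bound hU (hu t) hm10.le hy.2.1)
  have rz' : RR z ≤ (m / 10) • U := rz.trans (conj_bound hU hq1 hm10.le hy.2.2)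
  have lw' : LL w ≤ (m / 10) • U := lw.trans (conj_bound hU (hu t) hm10.le hy.2.1)
  have rw'' : RR w ≤ (m / 10) • U := rw'.trans (conj_bound hU hq2 hm10.le hy.2.2)
  obtain ⟨w', bV, dV, lV, rV⟩ := hLO n ι ι z w bz bw
  have LV : LL (Sum.elim z w') ≤ (5 * (m / 10)) • U := by
    rw [LL_elim]; exact five_le lz' lw' lV
  have RV : RR (Sum.elim z w') ≤ (5 * (m / 10)) • U := by
    rw [RR_elim]; exact five_le rz' rw'' rV
  have hle : 5 * (m / 10) ≤ m := by linarith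
  have h5 : 0 ≤ 5 * (m / 10) := by positivity
  have FV : Feas U m (Sum.elim z w') :=
    ⟨bV, LV.trans (rsmul_le_of_le hle hU.nonneg), RV.trans (rsmul_le_of_le hle hU.nonneg)⟩
  have nL := nsq_le_tr (LL_nonneg (Sum.elim z w')) (LV.trans (rsmul_le h5 hU.le_one))
  have nR := nsq_le_tr (RR_nonneg (Sum.elim z w')) (RV.trans (rsmul_le h5 hU.le_one))
  rw [← AA_eq_LL] at nL
  rw [← AA_eq_RR] at nR
  have hBV := hB (ι ⊕ ι) (Sum.elim z w') FV (1 / 1000) (by norm_num)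
  have AV := AA_le LV
  rw [AA_elim] at nL nR hBV AV
  rw [EE_elim] at hBV
  have hM : 0 < m * tr U := mul_pos hm hn
  set M : ℝ := m * tr U with hMdef
  have hM10 : m / 10 * tr U = M / 10 := by rw [hMdef]; ring
  have hηM : η * M ≤ τ * M := mul_le_mul_of_nonneg_right hητ hM.le
  have hηM0 : 0 ≤ η * M := by positivity
  have hτM : τ * M ≤ δ * M := mul_le_mul_of_nonneg_right hτ1 hM.le
  have k1 : C1 * (τ * M) ≤ δ * M := by
    rw [← mul_assoc]; exact mul_le_mul_of_nonneg_right hτ2 hM.le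
  have k2 : C2 * (τ * M) ≤ δ * M := by
    rw [← mul_assoc]; exact mul_le_mul_of_nonneg_right hτ3 hM.le
  have k3 : C3 * (τ * M) ≤ δ * M := by
    rw [← mul_assoc]; exact mul_le_mul_of_nonneg_right hτ4 hM.le
  have g0 : η * (M / 10) ≤ τ * M := by linarith
  have g1 : EE v S y + η * (M / 10) ≤ 2 * (τ * M) := by linarith
  rw [hM10] at dz dw ez ew hX0
  have dz' : ∑ a, nsq (z0 a - z a) ≤ δ * M :=
    dz.trans ((mul_le_mul_of_nonneg_left g0 hC1).trans k1)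
  have dw' : ∑ a, nsq (w0 a - w a) ≤ δ * M :=
    dw.trans ((mul_le_mul_of_nonneg_left g0 hC2).trans k2)
  have ez' : EE v S z ≤ 2 * (δ * M) := by
    have := mul_le_mul_of_nonneg_left g1 hC1
    linarith
  have ew' : EE v S w ≤ 2 * (δ * M) := by
    have := mul_le_mul_of_nonneg_left g1 hC2
    linarith
  have X0 : ∑ a, ∑ b, ‖trace ((z0 a)ᴴ * w0 b)‖ ^ 2 ≤ 3 * (δ * M) := by
    have e : ∀ a b, trace ((z0 a)ᴴ * w0 b) = trace ((y a)ᴴ * (y b * u c)) := by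
      intro a b
      simp only [hz0, hw0, hu1, Matrix.one_mul, conjTranspose_mul, conjTranspose_conjTranspose]
      have e1 : (u t)ᴴ * ((y a)ᴴ * u t) * ((u t)ᴴ * y b * (u c * u t)) =
          (u t)ᴴ * ((y a)ᴴ * (u t * (u t)ᴴ) * (y b * u c) * u t) := by
        simp only [Matrix.mul_assoc]
      rw [e1, (hu t).2, trace_mul_comm, Matrix.mul_assoc _ (u t), (hu t).2, Matrix.mul_one,
        Matrix.mul_one]
    simp only [e]
    have a1 := mul_le_mul_of_nonneg_left g1 hC3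
    have a2 := mul_le_mul_of_nonneg_left hε (show (0 : ℝ) ≤ 2 * (m / 10) by positivity)
    have a3 : 2 * (m / 10) * (δ * tr U) = δ * M / 5 := by rw [hMdef]; ring
    have a4 : 0 ≤ δ * M := by positivity
    linarith
  have XX := cross_le z z0 w w0 (bes_conj hy.1 (hu t) hq1) bw
  have a1 := AA_le_t (1 / 1000) (by norm_num) z0 z
  have a2 := AA_le_t (1 / 1000) (by norm_num) w0 w
  have a3 := AA_le_t (1 / 1000) (by norm_num) w w'
  rw [hz0, AA_conj y (hu t) hq1] at a1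
  rw [hw0, AA_conj y (hu t) hq2] at a2
  have Az := AA_le lz'
  have Aw := AA_le lw'
  rw [hM10] at Az Aw
  have Az0 := AA_nonneg z
  have Aw' : AA w' ≤ M / 2 := by
    have : 5 * (m / 10) * tr U = M / 2 := by rw [hMdef]; ring
    linarith
  have hE' := EE_le hvU S w w'
  have hB' : 3 * (AA z + AA w') ≤
      (F + 2 * (1 / 1000) + 2 * (1 + 1 / (1 / 1000)) * η) * (2 * M) +
      4 * (1 + 1 / (1 / 1000)) * K * (EE v S z + EE v S w') := by
    refine le_of_mul_le_mul_left ?_ hm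
    have e : m * ((F + 2 * (1 / 1000) + 2 * (1 + 1 / (1 / 1000)) * η) * (2 * M) +
      4 * (1 + 1 / (1 / 1000)) * K * (EE v S z + EE v S w')) =
      (F + 2 * (1 / 1000) + 2 * (1 + 1 / (1 / 1000)) * η) * (2 * m ^ 2 * tr U) +
      4 * m * (1 + 1 / (1 / 1000)) * K * (EE v S z + EE v S w') := by
      rw [hMdef]; ring
    rw [e]
    linarith
  refine arith (P := δ * M) (s := s) (X := ∑ a, ∑ b, ‖trace ((z a)ᴴ * w b)‖ ^ 2) hM hF hK hs
    ?_ ?_ ?_ (hηM.trans hτM) hA a1 a2 a3 Az Aw Aw' dz' dw' dV ?_ ez' ew' hE' hB'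
  · have := mul_le_mul_of_nonneg_right hδ1 hM.le
    linarith
  · have := mul_le_mul_of_nonneg_right hδ2 hM.le
    linarith
  · have := mul_le_mul_of_nonneg_right hδ3 hM.le
    linarith
  · linarith

end Pool.Agent.H849Z.NH
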