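import Pool.Agent.H304Z.NH.Spec4

set_option autoImplicit false
set_option linter.unusedSectionVars false
set_option linter.unusedVariables false

/-!
The assembly step: parts one and two give the general theorem.
-/

namespace Pool.Agent.H849Z.NH

open Matrix Finset
open scoped MatrixOrder ComplexOrder
open Pool.Agent.H304Z.NH

section lemmas

variable {n : Type} [Fintype n] [DecidableEq n]

theorem fin_nsq_sum {ι : Type} (s : Finset ι) (x : ι → Mat n) :
    nsq (∑ i ∈ s, x i) = ∑ i ∈ s, ∑ j ∈ s, tr ((x i)ᴴ * x j) := by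
  rw [nsq_eq, conjTranspose_sum, Finset.sum_mul, tr_sum]
  refine sum_congr rfl fun i _ => ?_
  rw [Finset.mul_sum, tr_sum]

theorem fin_nsq_sum_le {ι : Type} (s : Finset ι) (x : ι → Mat n) :
    nsq (∑ i ∈ s, x i) ≤ s.card * ∑ i ∈ s, nsq (x i) := by
  have h : ∑ i ∈ s, ∑ j ∈ s, tr ((x i)ᴴ * x j) ≤
      ∑ i ∈ s, ∑ j ∈ s, (nsq (x i) / 2 + nsq (x j) / 2) := by
    refine sum_le_sum fun i _ => sum_le_sum fun j _ => ?_
    have := two_tr_le 1 one_pos (x i) (x j)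
    linarith
  rw [fin_nsq_sum]
  refine h.trans (le_of_eq ?_)
  simp only [sum_add_distrib, sum_const, nsmul_eq_mul, ← Finset.mul_sum, ← Finset.sum_div]
  ring

theorem fin_avg_mul {J : Type} [Fintype J] [Nonempty J] (v : J → Mat n) (hv : ∀ j, IsU (v j))
    (x : Mat n) : nsq (((Fintype.card J : ℝ)⁻¹ • ∑ j, v j) * x) ≤ nsq x := by
  have hc : (0 : ℝ) < Fintype.card J := by exact_mod_cast Fintype.card_pos
  rw [Matrix.smul_mul, nsq_smul, Finset.sum_mul]
  have h := fin_nsq_sum_le univ (fun j => v j * x)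
  have e : ∀ j, nsq (v j * x) = nsq x := fun j => nsq_U_mul (hv j) x
  simp only [e, sum_const, card_univ, nsmul_eq_mul] at h
  calc (Fintype.card J : ℝ)⁻¹ ^ 2 * nsq (∑ j, v j * x) ≤
      (Fintype.card J : ℝ)⁻¹ ^ 2 * (Fintype.card J * (Fintype.card J * nsq x)) :=
        mul_le_mul_of_nonneg_left h (by positivity)
    _ = nsq x := by field_simp

theorem fin_avg {J : Type} [Fintype J] [Nonempty J] (v : J → Mat n) (hv : ∀ j, IsU (v j))
    {κ : ℝ} (hκ : 0 ≤ κ) (h : ∀ j k, j ≠ k → tr ((v j)ᴴ * v k) ≤ κ * Fintype.card n) :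
    nsq ((Fintype.card J : ℝ)⁻¹ • ∑ j, v j) ≤ (1 / Fintype.card J + κ) * Fintype.card n := by
  classical
  have hc : (0 : ℝ) < Fintype.card J := by exact_mod_cast Fintype.card_pos
  have hd : (0 : ℝ) ≤ Fintype.card n := Nat.cast_nonneg _
  rw [nsq_smul, fin_nsq_sum]
  have h1 : ∑ j, ∑ k, tr ((v j)ᴴ * v k) ≤
      ∑ j : J, ∑ k : J, ((if j = k then (Fintype.card n : ℝ) else 0) + κ * Fintype.card n) := by
    refine sum_le_sum fun j _ => sum_le_sum fun k _ => ?_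
    by_cases hjk : j = k
    · subst hjk
      rw [if_pos rfl, (hv j).1, tr_one]
      have := mul_nonneg hκ hd
      linarith
    · rw [if_neg hjk, zero_add]
      exact h j k hjk
  simp only [sum_add_distrib, sum_ite_eq, mem_univ, if_true, sum_const, card_univ,
    nsmul_eq_mul] at h1
  calc (Fintype.card J : ℝ)⁻¹ ^ 2 * ∑ j, ∑ k, tr ((v j)ᴴ * v k) ≤
      (Fintype.card J : ℝ)⁻¹ ^ 2 * (Fintype.card J * Fintype.card n +
        Fintype.card J * (Fintype.card J * (κ * Fintype.card n))) :=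
        mul_le_mul_of_nonneg_left h1 (by positivity)
    _ = _ := by field_simp

theorem fin_df {G : Type} [Group G] (u : G → Mat n) (hu : ∀ g, IsU (u g)) (g h : G) :
    nsq ((df u g h)ᴴ * df u g h + df u g h * (df u g h)ᴴ) ≤ 16 * nsq (df u g h) := by
  have ha : IsU (u g * u h) := (hu g).mul (hu h)
  have hb : IsU (u (g * h)) := hu _
  have h1 : nsq ((df u g h)ᴴ * df u g h) ≤ 4 * nsq (df u g h) := by
    have e : (df u g h)ᴴ * df u g h =
        (df u g h)ᴴ * (u g * u h) - (df u g h)ᴴ * u (g * h) := by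
      rw [← Matrix.mul_sub]; rfl
    have := nsq_sub_le ((df u g h)ᴴ * (u g * u h)) ((df u g h)ᴴ * u (g * h))
    rw [← e, nsq_mul_U ha, nsq_mul_U hb, nsq_star] at this
    linarith
  have h2 : nsq (df u g h * (df u g h)ᴴ) ≤ 4 * nsq (df u g h) := by
    have e : df u g h * (df u g h)ᴴ =
        (u g * u h) * (df u g h)ᴴ - u (g * h) * (df u g h)ᴴ := by
      rw [← Matrix.sub_mul]; rfl
    have := nsq_sub_le ((u g * u h) * (df u g h)ᴴ) (u (g * h) * (df u g h)ᴴ)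
    rw [← e, nsq_U_mul ha, nsq_U_mul hb, nsq_star] at this
    linarith
  have h3 := nsq_add_le ((df u g h)ᴴ * df u g h) (df u g h * (df u g h)ᴴ)
  linarith

end lemmas

theorem fin (hAM : S_AM) (hCL : S_CL) (hP1 : S_P1) (hP2 : S_P2) :
    Pool.Agent.H304Z.NH.S_FIN := by
  intro G _ S θ t c hK hS hR ht hc hinf hH
  classical
  obtain ⟨γ, C, hγ, hC, P1⟩ := hP1 G S hK
  obtain ⟨ε, hε, P2⟩ := hP2 G S θ t c hK hS hR ht hc γ hγ
  set ρ : ℝ := 1 / C with hρ
  have hρ0 : 0 < ρ := by positivity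
  have hCρ : C * ρ = 1 := by rw [hρ]; field_simp
  set κ : ℝ := (ρ * ε) ^ 2 / 8 with hκ
  have hκ0 : 0 < κ := by positivity
  obtain ⟨N, hN⟩ := exists_nat_one_div_lt hκ0
  have hex : ∀ k : ℕ, ∃ g : G, θ g * c * (θ g)⁻¹ = (hinf.natEmbedding _ k).1 :=
    fun k => (hinf.natEmbedding _ k).2
  choose l0 hl0 using hex
  let l : Fin (N + 1) → G := fun j => l0 j
  have hl : ∀ j k : Fin (N + 1), j ≠ k → θ (l j) * c * (θ (l j))⁻¹ ≠ θ (l k) * c * (θ (l k))⁻¹ := by
    intro j k hjk e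
    apply hjk
    have e1 : (hinf.natEmbedding _ j).1 = (hinf.natEmbedding _ k).1 := by
      rw [← hl0, ← hl0]; exact e
    exact Fin.ext ((hinf.natEmbedding _).injective (Subtype.ext e1))
  obtain ⟨W2, ω, hω, P2'⟩ := P2 (Fin (N + 1)) l
  have hcl := fun g : G => hCL G S g (by rw [hS]; exact Subgroup.mem_top g)
  choose Wg Cg hCg CL using hcl
  set Wa : Finset G := W2 ∪ W2.biUnion Wg with hWa
  set Cs : ℝ := 1 + ∑ g ∈ W2, Cg g with hCs
  have hsum0 : 0 ≤ ∑ g ∈ W2, Cg g := sum_nonneg fun g _ => hCg g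
  have hCs1 : 1 ≤ Cs := by rw [hCs]; linarith
  have hCs0 : 0 < Cs := by linarith
  have hCgs : ∀ g ∈ W2, Cg g ≤ Cs := by
    intro g hg
    have := single_le_sum (f := Cg) (fun g _ => hCg g) hg
    rw [hCs]; linarith
  set η : ℝ := ω / (2 * Cs) with hη
  have hη0 : 0 < η := by positivity
  have hηC : Cs * (2 * η) = ω := by rw [hη]; field_simp
  have hηω : η ≤ ω := by nlinarith
  obtain ⟨W1, δ1, hδ1, P1'⟩ := P1 η hη0
  set P : ℝ := ((Wa ×ˢ Wa).card : ℝ) with hP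
  have hP0 : 0 ≤ P := Nat.cast_nonneg _
  set δ2 : ℝ := (ρ * η) ^ 2 / (64 * (P + 1) ^ 2) with hδ2
  have hδ20 : 0 < δ2 := by positivity
  obtain ⟨n, _, _, _, u, hu, hu1, AM⟩ := hAM G hH
    (Wa ∪ W1 ∪ Finset.univ.image fun j => θ (l j) * c * (θ (l j))⁻¹) (min δ1 δ2) κ
    (lt_min hδ1 hδ20) hκ0
  have hd : (0 : ℝ) ≤ Fintype.card n := Nat.cast_nonneg _
  set d : ℝ := (Fintype.card n : ℝ) with hddef
  set cb : Mat n := (Fintype.card (Fin (N + 1)) : ℝ)⁻¹ • ∑ j, u (θ (l j) * c * (θ (l j))⁻¹)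
    with hcb
  have hcb1 : nsq cb ≤ 2 * κ * d := by
    have h := fin_avg (fun j => u (θ (l j) * c * (θ (l j))⁻¹)) (fun j => hu _) hκ0.le
      (fun j k hjk => (AM _ (mem_union_right _ (mem_image_of_mem _ (mem_univ j))) _
        (mem_union_right _ (mem_image_of_mem _ (mem_univ k)))).2 (hl j k hjk))
    refine h.trans (mul_le_mul_of_nonneg_right ?_ hd)
    rw [Fintype.card_fin]
    push_cast
    linarith
  have hcb2 : nsq (cb * cbᴴ) ≤ 2 * κ * d := by
    have h := fin_avg_mul (fun j => u (θ (l j) * c * (θ (l j))⁻¹)) (fun j => hu _) cbᴴ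
    rw [nsq_star] at h
    exact h.trans hcb1
  set B : Mat n := ∑ p ∈ Wa ×ˢ Wa,
    ((df u p.1 p.2)ᴴ * df u p.1 p.2 + df u p.1 p.2 * (df u p.1 p.2)ᴴ) with hB
  have hB0 : 0 ≤ B :=
    sum_nonneg fun p _ => add_nonneg (star_mul_nonneg _) (mul_star_nonneg _)
  have hB1 : nsq B ≤ P * (P * (16 * (δ2 * d))) := by
    refine (fin_nsq_sum_le _ _).trans (mul_le_mul_of_nonneg_left ?_ hP0)
    have h : ∀ p ∈ Wa ×ˢ Wa,
        nsq ((df u p.1 p.2)ᴴ * df u p.1 p.2 + df u p.1 p.2 * (df u p.1 p.2)ᴴ) ≤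
          16 * (δ2 * d) := by
      intro p hp
      have h1 := (AM p.1 (mem_union_left _ (mem_union_left _ (mem_product.mp hp).1)) p.2
        (mem_union_left _ (mem_union_left _ (mem_product.mp hp).2))).1
      have h2 : min δ1 δ2 * d ≤ δ2 * d := mul_le_mul_of_nonneg_right (min_le_right _ _) hd
      have h3 := fin_df u hu p.1 p.2
      linarith
    have := sum_le_sum h
    rwa [sum_const, nsmul_eq_mul] at this
  set b : Mat n := η⁻¹ • B + ε⁻¹ • (cb * cbᴴ) with hb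
  have hb0 : 0 ≤ b :=
    add_nonneg (rsmul_nonneg (by positivity) hB0) (rsmul_nonneg (by positivity) (mul_star_nonneg _))
  have hb1 : nsq b ≤ ρ ^ 2 * d := by
    have h1 := nsq_add_le (η⁻¹ • B) (ε⁻¹ • (cb * cbᴴ))
    rw [nsq_smul, nsq_smul] at h1
    have h2 : η⁻¹ ^ 2 * nsq B ≤ η⁻¹ ^ 2 * (P * (P * (16 * (δ2 * d)))) :=
      mul_le_mul_of_nonneg_left hB1 (by positivity)
    have h3 : ε⁻¹ ^ 2 * nsq (cb * cbᴴ) ≤ ε⁻¹ ^ 2 * (2 * κ * d) :=
      mul_le_mul_of_nonneg_left hcb2 (by positivity)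
    have h4 : ε⁻¹ ^ 2 * (2 * κ * d) = ρ ^ 2 * d / 4 := by
      rw [hκ]; field_simp; ring
    have h5 : η⁻¹ ^ 2 * (P * (P * (16 * (δ2 * d)))) = (P / (P + 1)) ^ 2 * (ρ ^ 2 * d / 4) := by
      rw [hδ2]; field_simp; ring
    have h6 : (P / (P + 1)) ^ 2 ≤ 1 := by
      apply pow_le_one₀ (by positivity)
      rw [div_le_one (by positivity)]
      linarith
    have h7 : (P / (P + 1)) ^ 2 * (ρ ^ 2 * d / 4) ≤ 1 * (ρ ^ 2 * d / 4) :=
      mul_le_mul_of_nonneg_right h6 (by positivity)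
    linarith
  obtain ⟨U, hU, hU0, hen, hbU, hirr⟩ := P1' n u hu hu1
    (fun g hg h hh => ((AM g (mem_union_left _ (mem_union_right _ hg)) h
      (mem_union_left _ (mem_union_right _ hh))).1).trans
      (mul_le_mul_of_nonneg_right (min_le_left _ _) hd)) b ρ hb0 hρ0 hb1
  rw [hCρ, one_mul] at hbU
  have etr : tr (b * U) = η⁻¹ * ∑ p ∈ Wa ×ˢ Wa,
      (nsq (df u p.1 p.2 * U) + nsq (U * df u p.1 p.2)) + ε⁻¹ * nsq (U * cb) := by
    rw [hb, Matrix.add_mul, Matrix.smul_mul, Matrix.smul_mul, tr_add, tr_smul, tr_smul,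
      hU.nsq_mul', hB, Finset.sum_mul, tr_sum]
    congr 2
    refine sum_congr rfl fun p _ => ?_
    rw [Matrix.add_mul, tr_add, hU.nsq_mul, hU.nsq_mul']
  rw [etr] at hbU
  have s0 : 0 ≤ ∑ p ∈ Wa ×ˢ Wa, (nsq (df u p.1 p.2 * U) + nsq (U * df u p.1 p.2)) :=
    sum_nonneg fun p _ => add_nonneg (nsq_nonneg _) (nsq_nonneg _)
  have s1 : 0 ≤ η⁻¹ * ∑ p ∈ Wa ×ˢ Wa, (nsq (df u p.1 p.2 * U) + nsq (U * df u p.1 p.2)) :=
    mul_nonneg (by positivity) s0
  have s2 : 0 ≤ ε⁻¹ * nsq (U * cb) := mul_nonneg (by positivity) (nsq_nonneg _)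
  have s3 : nsq (U * cb) ≤ ε * tr U := by
    have h : ε⁻¹ * nsq (U * cb) ≤ tr U := by linarith
    rwa [inv_mul_le_iff₀ hε] at h
  have s4 : ∑ p ∈ Wa ×ˢ Wa, (nsq (df u p.1 p.2 * U) + nsq (U * df u p.1 p.2)) ≤ η * tr U := by
    have h : η⁻¹ * ∑ p ∈ Wa ×ˢ Wa, (nsq (df u p.1 p.2 * U) + nsq (U * df u p.1 p.2)) ≤ tr U := by
      linarith
    rwa [inv_mul_le_iff₀ hη0] at h
  have s5 : ∀ g ∈ Wa, ∀ h ∈ Wa,
      nsq (df u g h * U) ≤ η * tr U ∧ nsq (U * df u g h) ≤ η * tr U := by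
    intro g hg h hh
    have h1 := single_le_sum
      (f := fun p : G × G => nsq (df u p.1 p.2 * U) + nsq (U * df u p.1 p.2))
      (fun p _ => add_nonneg (nsq_nonneg _) (nsq_nonneg _))
      (show (g, h) ∈ Wa ×ˢ Wa from mem_product.mpr ⟨hg, hh⟩)
    have h2 := nsq_nonneg (df u g h * U)
    have h3 := nsq_nonneg (U * df u g h)
    simp only at h1
    constructor <;> linarith
  have s6 : η * tr U ≤ ω * tr U := mul_le_mul_of_nonneg_right hηω hU0.le
  refine P2' n u hu hu1 U hU hU0 ?_ ?_ s3 hirr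
  · intro g hg h hh
    have := s5 g (mem_union_left _ hg) h (mem_union_left _ hh)
    exact ⟨this.1.trans s6, this.2.trans s6⟩
  · intro g hg
    have h1 := CL g n u hu hu1 Unit (fun _ => U) (η * tr U) (by positivity) (by
      intro a ha b hb
      have := s5 a (mem_union_right _ (mem_biUnion.mpr ⟨g, hg, ha⟩)) b
        (mem_union_right _ (mem_biUnion.mpr ⟨g, hg, hb⟩))
      simpa only [Fintype.sum_unique] using this)
    simp only [Fintype.sum_unique] at h1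
    have h2 : Cg g * (en u S U + η * tr U) ≤ Cg g * (2 * η * tr U) :=
      mul_le_mul_of_nonneg_left (by linarith) (hCg g)
    have h3 : Cg g * (2 * η * tr U) ≤ Cs * (2 * η * tr U) :=
      mul_le_mul_of_nonneg_right (hCgs g hg) (by positivity)
    have h4 : Cs * (2 * η * tr U) = ω * tr U := by rw [← hηC]; ring
    linarith

end Pool.Agent.H849Z.NH
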